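import Pool.Agent.Run7.h715.Mat.Core

/-!
# Approximation of convex combinations of sets by dyadic ones
-/

set_option autoImplicit false

namespace Run7.h715.Mat

open Finset

variable {n : ℕ}

/-- The indicator vector of a set. -/
def ind (B : Finset (Fin n)) : Fin n → ℝ := fun j => if j ∈ B then 1 else 0

theorem sum_ind (B : Finset (Fin n)) (u : Fin n → ℝ) : ∑ j, ind B j * u j = ∑ j ∈ B, u j := by
  classical
  unfold ind
  simp_rw [ite_mul, one_mul, zero_mul]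
  rw [← Finset.sum_filter]
  congr 1
  ext j; simp

theorem abs_sum_le (B : Finset (Fin n)) (u : Fin n → ℝ) (hu : ∀ j, |u j| ≤ 1) :
    |∑ j ∈ B, u j| ≤ n := by
  refine (Finset.abs_sum_le_sum_abs _ _).trans ?_
  refine (Finset.sum_le_sum fun j _ => hu j).trans ?_
  rw [Finset.sum_const, nsmul_eq_mul, mul_one]
  have := Finset.card_le_univ B
  rw [Fintype.card_fin] at this
  exact_mod_cast this

theorem approx {𝓑 : Set (Finset (Fin n))} {x₀ : Fin n → ℝ}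
    (hx : x₀ ∈ convexHull ℝ {y | ∃ B ∈ 𝓑, y = ind B}) (k : ℕ) :
    ∃ f : (Fin k → Bool) → Finset (Fin n), (∀ x, f x ∈ 𝓑) ∧
      ∀ u : Fin n → ℝ, (∀ j, |u j| ≤ 1) →
        |(∑ x, ∑ j ∈ f x, u j) / 2 ^ k - ∑ j, x₀ j * u j| ≤ 2 * n * n / 2 ^ k := by
  classical
  obtain ⟨ι, hι, z, w, hz, haff, hw0, hw1, hwx⟩ := eq_pos_convex_span_of_mem_convexHull hx
  have hb : ∀ i, ∃ B ∈ 𝓑, z i = ind B := fun i => hz (Set.mem_range_self i)
  choose b hb1 hb2 using hb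
  have hcard : Fintype.card ι ≤ n + 1 := by
    have h1 := haff.card_le_finrank_succ
    have h2 := Submodule.finrank_le (vectorSpan ℝ (Set.range z))
    rw [Module.finrank_fin_fun] at h2
    omega
  obtain ⟨i₀⟩ : Nonempty ι := by
    by_contra h
    rw [not_nonempty_iff] at h
    rw [Fintype.sum_empty] at hw1
    exact one_ne_zero hw1.symm
  have h2k : (0:ℝ) < 2 ^ k := by positivity
  set N' : ι → ℕ := fun i => ⌊2 ^ k * w i⌋₊ with hN'
  have hN'1 : ∀ i, (N' i : ℝ) ≤ 2 ^ k * w i := fun i =>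
    Nat.floor_le (mul_nonneg h2k.le (hw0 i).le)
  have hN'2 : ∀ i, 2 ^ k * w i < N' i + 1 := fun i => Nat.lt_floor_add_one _
  have hsumle : ∑ i ∈ univ.erase i₀, N' i ≤ 2 ^ k := by
    have h1 : ((∑ i ∈ univ.erase i₀, N' i : ℕ) : ℝ) ≤ ((2 ^ k : ℕ) : ℝ) := by
      push_cast
      refine (Finset.sum_le_sum fun i _ => hN'1 i).trans ?_
      rw [← Finset.mul_sum]
      have h3 : ∑ i ∈ univ.erase i₀, w i ≤ 1 := by
        rw [← hw1]
        exact Finset.sum_le_sum_of_subset_of_nonneg (Finset.erase_subset _ _)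
          fun i _ _ => (hw0 i).le
      calc (2:ℝ) ^ k * ∑ i ∈ univ.erase i₀, w i ≤ 2 ^ k * 1 :=
            mul_le_mul_of_nonneg_left h3 h2k.le
        _ = 2 ^ k := mul_one _
    exact_mod_cast h1
  set N : ι → ℕ := fun i => if i = i₀ then 2 ^ k - ∑ i ∈ univ.erase i₀, N' i else N' i with hN
  have hNi : ∀ i, i ≠ i₀ → N i = N' i := fun i hi => by simp [hN, hi]
  have hN0 : N i₀ = 2 ^ k - ∑ i ∈ univ.erase i₀, N' i := by simp [hN]
  have hNsum : ∑ i, N i = 2 ^ k := by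
    rw [← Finset.add_sum_erase _ _ (Finset.mem_univ i₀), hN0]
    have : ∑ i ∈ univ.erase i₀, N i = ∑ i ∈ univ.erase i₀, N' i :=
      Finset.sum_congr rfl fun i hi => hNi i (Finset.ne_of_mem_erase hi)
    rw [this]
    omega
  have hcards : Fintype.card (Fin k → Bool) = Fintype.card (Σ i, Fin (N i)) := by
    simp [hNsum]
  let e := Fintype.equivOfCardEq hcards
  refine ⟨fun x => b (e x).1, fun x => hb1 _, fun u hu => ?_⟩
  have hfib : ∑ x : Fin k → Bool, ∑ j ∈ b (e x).1, u j = ∑ i, (N i : ℝ) * ∑ j ∈ b i, u j := by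
    rw [Equiv.sum_comp e (fun p : Σ i, Fin (N i) => ∑ j ∈ b p.1, u j), Fintype.sum_sigma]
    refine Finset.sum_congr rfl fun i _ => ?_
    simp
  have hx0 : ∑ j, x₀ j * u j = ∑ i, w i * ∑ j ∈ b i, u j := by
    rw [← hwx]
    simp_rw [Finset.sum_apply, Pi.smul_apply, smul_eq_mul, Finset.sum_mul]
    rw [Finset.sum_comm]
    refine Finset.sum_congr rfl fun i _ => ?_
    rw [← sum_ind (b i) u, Finset.mul_sum]
    refine Finset.sum_congr rfl fun j _ => ?_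
    rw [hb2 i, mul_assoc]
  show |(∑ x : Fin k → Bool, ∑ j ∈ b (e x).1, u j) / 2 ^ k - ∑ j, x₀ j * u j| ≤ _
  rw [hfib, hx0, Finset.sum_div, ← Finset.sum_sub_distrib]
  have hterm : ∀ i, (N i : ℝ) * (∑ j ∈ b i, u j) / 2 ^ k - w i * ∑ j ∈ b i, u j =
      ((N i : ℝ) / 2 ^ k - w i) * ∑ j ∈ b i, u j := by
    intro i
    ring
  simp_rw [hterm]
  have hdi : ∀ i, i ≠ i₀ → |(N i : ℝ) / 2 ^ k - w i| ≤ 1 / 2 ^ k := by
    intro i hi
    rw [hNi i hi, abs_le]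
    have h1 := hN'1 i
    have h2 := hN'2 i
    constructor
    · rw [neg_le_iff_add_nonneg]
      have : (N' i : ℝ) / 2 ^ k - w i + 1 / 2 ^ k = (N' i + 1 - 2 ^ k * w i) / 2 ^ k := by
        field_simp
        ring
      rw [this]
      apply div_nonneg _ h2k.le
      linarith
    · have : (N' i : ℝ) / 2 ^ k - w i = (N' i - 2 ^ k * w i) / 2 ^ k := by
        field_simp
      rw [this]
      apply div_le_div_of_nonneg_right _ h2k.le
      linarith
  have hd0 : |(N i₀ : ℝ) / 2 ^ k - w i₀| ≤ n / 2 ^ k := by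
    have h1 : ∑ i, ((N i : ℝ) / 2 ^ k - w i) = 0 := by
      rw [Finset.sum_sub_distrib, hw1, ← Finset.sum_div]
      have : (∑ i, (N i : ℝ)) = 2 ^ k := by exact_mod_cast hNsum
      rw [this, div_self h2k.ne', sub_self]
    rw [← Finset.add_sum_erase _ _ (Finset.mem_univ i₀)] at h1
    have h2 : (N i₀ : ℝ) / 2 ^ k - w i₀ = -∑ i ∈ univ.erase i₀, ((N i : ℝ) / 2 ^ k - w i) := by
      linarith
    rw [h2, abs_neg]
    refine (Finset.abs_sum_le_sum_abs _ _).trans ?_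
    refine (Finset.sum_le_sum fun i hi => hdi i (Finset.ne_of_mem_erase hi)).trans ?_
    rw [Finset.sum_const, nsmul_eq_mul, Finset.card_erase_of_mem (Finset.mem_univ _),
      Finset.card_univ, mul_one_div]
    apply div_le_div_of_nonneg_right _ h2k.le
    have : Fintype.card ι - 1 ≤ n := by omega
    exact_mod_cast this
  refine (Finset.abs_sum_le_sum_abs _ _).trans ?_
  have hle : ∀ i, |((N i : ℝ) / 2 ^ k - w i) * ∑ j ∈ b i, u j| ≤
      |(N i : ℝ) / 2 ^ k - w i| * n := by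
    intro i
    rw [abs_mul]
    exact mul_le_mul_of_nonneg_left (abs_sum_le _ _ hu) (abs_nonneg _)
  refine (Finset.sum_le_sum fun i _ => hle i).trans ?_
  rw [← Finset.sum_mul, ← Finset.add_sum_erase _ _ (Finset.mem_univ i₀)]
  have hrest : ∑ i ∈ univ.erase i₀, |(N i : ℝ) / 2 ^ k - w i| ≤ n / 2 ^ k := by
    refine (Finset.sum_le_sum fun i hi => hdi i (Finset.ne_of_mem_erase hi)).trans ?_
    rw [Finset.sum_const, nsmul_eq_mul, Finset.card_erase_of_mem (Finset.mem_univ _),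
      Finset.card_univ, mul_one_div]
    apply div_le_div_of_nonneg_right _ h2k.le
    have : Fintype.card ι - 1 ≤ n := by omega
    exact_mod_cast this
  have hn : (0:ℝ) ≤ n := by positivity
  calc (|(N i₀ : ℝ) / 2 ^ k - w i₀| + ∑ i ∈ univ.erase i₀, |(N i : ℝ) / 2 ^ k - w i|) * n
      ≤ (n / 2 ^ k + n / 2 ^ k) * n := mul_le_mul_of_nonneg_right (add_le_add hd0 hrest) hn
    _ = 2 * n * n / 2 ^ k := by ring

/-- **Rounding in the convex hull of a family with bounded exchange blocks**, with the number of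
vectors in the signings that are used. -/
theorem round {𝓑 : Set (Finset (Fin n))} {s : ℕ} (h𝓑 : ExchangeBlocks 𝓑 s) {κ : Type}
    (v : Fin n → κ → ℝ) (hv : ∀ j a, |v j a| ≤ 1) (P : (κ → ℝ) → Prop)
    (hP : ∀ D : Finset (Fin n), D.card ≤ s → ∀ σ : Fin n → ℝ, (∀ j, σ j = 1 ∨ σ j = -1) →
      P (fun k => ∑ j ∈ D, σ j * v j k)) (β : ℝ) (hβ : 0 ≤ β) (k : ℕ)
    (hS : Signable P (2 ^ k * n) β) {x₀ : Fin n → ℝ}
    (hx : x₀ ∈ convexHull ℝ {y | ∃ B ∈ 𝓑, y = ind B}) :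
    ∃ B ∈ 𝓑, ∀ a, |∑ j ∈ B, v j a - ∑ j, x₀ j * v j a| ≤ β + 2 * n * n / 2 ^ k := by
  obtain ⟨f, hf1, hf2⟩ := approx hx k
  obtain ⟨B, hB1, hB2⟩ := merge h𝓑 v P hP β k hS f hf1
  refine ⟨B, hB1, fun a => ?_⟩
  have h1 := hB2 a
  have h2 := hf2 (fun j => v j a) (fun j => hv j a)
  have h3 : (1 - 1 / 2 ^ k) * β ≤ β := by
    have : (0:ℝ) ≤ 1 / 2 ^ k * β := by positivity
    nlinarith
  have h4 : ∑ j ∈ B, v j a - ∑ j, x₀ j * v j a =
      (∑ j ∈ B, v j a - (∑ x, ∑ j ∈ f x, v j a) / 2 ^ k) +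
        ((∑ x, ∑ j ∈ f x, v j a) / 2 ^ k - ∑ j, x₀ j * v j a) := by ring
  rw [h4]
  refine (abs_add_le _ _).trans ?_
  linarith

/-- The same without additional error, if the signings exist for any number of vectors. -/
theorem round_exact {𝓑 : Set (Finset (Fin n))} {s : ℕ} (h𝓑 : ExchangeBlocks 𝓑 s) {κ : Type}
    (v : Fin n → κ → ℝ) (hv : ∀ j a, |v j a| ≤ 1) (P : (κ → ℝ) → Prop)
    (hP : ∀ D : Finset (Fin n), D.card ≤ s → ∀ σ : Fin n → ℝ, (∀ j, σ j = 1 ∨ σ j = -1) →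
      P (fun k => ∑ j ∈ D, σ j * v j k)) (β : ℝ) (hβ : 0 ≤ β)
    (hS : ∀ N, Signable P N β) {x₀ : Fin n → ℝ}
    (hx : x₀ ∈ convexHull ℝ {y | ∃ B ∈ 𝓑, y = ind B}) :
    ∃ B ∈ 𝓑, ∀ a, |∑ j ∈ B, v j a - ∑ j, x₀ j * v j a| ≤ β := by
  classical
  have h1 : ∀ k : ℕ, ∃ B : Finset (Fin n), B ∈ 𝓑 ∧
      ∀ a, |∑ j ∈ B, v j a - ∑ j, x₀ j * v j a| ≤ β + 2 * n * n / 2 ^ k :=
    fun k => round h𝓑 v hv P hP β hβ k (hS _) hx
  choose B hB1 hB2 using h1
  obtain ⟨B₀, hB₀⟩ := Finite.exists_infinite_fiber B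
  rw [Set.infinite_coe_iff] at hB₀
  obtain ⟨k₀, hk₀⟩ := hB₀.nonempty
  have hBk : B k₀ = B₀ := hk₀
  refine ⟨B₀, hBk ▸ hB1 k₀, fun a => ?_⟩
  apply le_of_forall_pos_le_add
  intro η hη
  have hlim : Filter.Tendsto (fun k : ℕ => 2 * (n:ℝ) * n / 2 ^ k) Filter.atTop (nhds 0) := by
    have h2 := tendsto_pow_atTop_nhds_zero_of_lt_one (r := (1:ℝ) / 2) (by norm_num) (by norm_num)
    have h3 := h2.const_mul (2 * (n:ℝ) * n)
    rw [mul_zero] at h3
    refine h3.congr fun k => ?_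
    rw [one_div, inv_pow, div_eq_mul_inv]
  obtain ⟨K, hK⟩ := Filter.eventually_atTop.1 (hlim.eventually (gt_mem_nhds hη))
  obtain ⟨k, hk1, hk2⟩ := hB₀.exists_gt K
  have hk3 : B k = B₀ := hk1
  have h4 := hB2 k a
  rw [hk3] at h4
  have h5 := hK k hk2.le
  linarith

end Run7.h715.Mat
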