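import Pool.Agent.Run7.h715.Mat.Kom
import Pool.Agent.Results.MP_e8ee11_co.BeckFialaBoundT

/-!
# Set systems of bounded degree: block vectors
-/

set_option autoImplicit false

namespace Run7.h715.Mat.BF

open Finset

/-- Every element is in at most `t` of the sets `S_1, …, S_m`. -/
def DegreeLE {m n : ℕ} (S : Fin m → Finset (Fin n)) (t : ℕ) : Prop :=
  ∀ j, (Finset.univ.filter (fun i => j ∈ S i)).card ≤ t

/-- incidence vectors -/
def inc {m n : ℕ} (S : Fin m → Finset (Fin n)) : Fin n → Fin m → ℝ :=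
  fun j i => if j ∈ S i then 1 else 0

theorem inc_abs {m n : ℕ} (S : Fin m → Finset (Fin n)) (j : Fin n) (i : Fin m) :
    |inc S j i| ≤ 1 := by
  unfold inc
  split_ifs <;> simp

theorem sum_inc {m n : ℕ} {S : Fin m → Finset (Fin n)} {t : ℕ} (hS : DegreeLE S t) (j : Fin n) :
    ∑ i, |inc S j i| ≤ t := by
  have h1 : ∑ i, |inc S j i| = (Finset.univ.filter (fun i => j ∈ S i)).card := by
    rw [Finset.card_filter]
    push_cast
    refine Finset.sum_congr rfl fun i _ => ?_
    unfold inc
    split_ifs <;> simp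
  rw [h1]
  exact_mod_cast hS j

theorem sum_set {m n : ℕ} (S : Fin m → Finset (Fin n)) (i : Fin m) (x : Fin n → ℝ) :
    ∑ j, x j * inc S j i = ∑ j ∈ S i, x j := by
  classical
  unfold inc
  simp_rw [mul_ite, mul_one, mul_zero]
  rw [← Finset.sum_filter]
  congr 1
  ext j; simp

theorem sum_card {m n : ℕ} (S : Fin m → Finset (Fin n)) (i : Fin m) (B : Finset (Fin n)) :
    ∑ j ∈ B, inc S j i = ((S i ∩ B).card : ℝ) := by
  classical
  unfold inc
  rw [← Finset.sum_filter, Finset.sum_const, nsmul_eq_mul, mul_one]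
  congr 2
  ext j
  simp only [Finset.mem_filter, Finset.mem_inter]
  exact and_comm

/-- the dimension free bound -/
theorem round_st {m n t s : ℕ} (S : Fin m → Finset (Fin n)) (hS : DegreeLE S t)
    {𝓑 : Set (Finset (Fin n))} (h𝓑 : ExchangeBlocks 𝓑 s) {x₀ : Fin n → ℝ}
    (hx : x₀ ∈ convexHull ℝ {y | ∃ B ∈ 𝓑, y = ind B}) :
    ∃ B ∈ 𝓑, ∀ i, |((S i ∩ B).card : ℝ) - ∑ j ∈ S i, x₀ j| ≤ s * t := by
  classical
  obtain ⟨B, hB1, hB2⟩ := round_exact h𝓑 (inc S) (inc_abs S)
    (fun w => ∑ i, |w i| ≤ (s:ℝ) * t) (fun D hD σ hσ => by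
      have hσa : ∀ j, |σ j| = 1 := by
        intro j
        rcases hσ j with h | h <;> rw [h] <;> norm_num
      have h1 : ∀ i, |∑ j ∈ D, σ j * inc S j i| ≤ ∑ j ∈ D, |inc S j i| := by
        intro i
        refine (Finset.abs_sum_le_sum_abs _ _).trans (le_of_eq ?_)
        refine Finset.sum_congr rfl fun j _ => ?_
        rw [abs_mul, hσa, one_mul]
      refine (Finset.sum_le_sum fun i _ => h1 i).trans ?_
      rw [Finset.sum_comm]
      refine (Finset.sum_le_sum fun j _ => sum_inc hS j).trans ?_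
      rw [Finset.sum_const, nsmul_eq_mul]
      have : (D.card : ℝ) ≤ s := by exact_mod_cast hD
      exact mul_le_mul_of_nonneg_right this (by positivity)) (s * t) (by positivity)
    (fun N => by
      intro M _ w hw
      obtain ⟨ε, h1, h2⟩ := Pool.Agent.Results.MP_e8ee11_co.BeckFialaBoundT.result m M
        ((s:ℝ) * t) (fun i j => w j i) (by positivity) (fun j => hw j)
      refine ⟨ε, h1, fun i => ?_⟩
      refine le_trans (le_of_eq ?_) (h2 i)
      congr 1
      exact Finset.sum_congr rfl fun j _ => mul_comm _ _) hx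
  refine ⟨B, hB1, fun i => ?_⟩
  have := hB2 i
  rw [sum_card, sum_set] at this
  exact this

theorem log_le_root {t : ℝ} (ht : 1 ≤ t) : (1 + 1 / 2 * Real.log t) ^ 2 ≤ 4 * Real.sqrt t := by
  have h0 : 0 < t := by linarith
  set q := Real.sqrt (Real.sqrt t) with hq
  have hst : 1 ≤ Real.sqrt t := Real.one_le_sqrt.2 ht
  have hq1 : 1 ≤ q := Real.one_le_sqrt.2 hst
  have hq2 : q ^ 2 = Real.sqrt t := Real.sq_sqrt (by linarith)
  have hq4 : q ^ 4 = t := by
    have : q ^ 4 = (q ^ 2) ^ 2 := by ring
    rw [this, hq2, Real.sq_sqrt h0.le]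
  have h1 : Real.log t = 4 * Real.log q := by
    rw [← hq4, Real.log_pow]
    norm_num
  have h2 : Real.log q ≤ q - 1 := Real.log_le_sub_one_of_pos (by linarith)
  have h3 : 0 ≤ Real.log q := Real.log_nonneg hq1
  rw [h1, ← hq2]
  nlinarith

theorem round_sqrt : ∃ C : ℝ, 0 < C ∧ ∀ (m n t s : ℕ) (S : Fin m → Finset (Fin n))
    (𝓑 : Set (Finset (Fin n))) (x₀ : Fin n → ℝ), DegreeLE S t → 1 ≤ s → ExchangeBlocks 𝓑 s →
    x₀ ∈ convexHull ℝ {y | ∃ B ∈ 𝓑, y = ind B} →
    ∃ B ∈ 𝓑, ∀ i, |((S i ∩ B).card : ℝ) - ∑ j ∈ S i, x₀ j| ≤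
      C * s * (Real.sqrt t + (1 + Real.log t) ^ (3 / 2 : ℝ) *
        Real.sqrt (Real.log (1 + (min m n : ℕ)))) := by
  classical
  obtain ⟨C, hC0, hC⟩ := rounding
  refine ⟨C * 5, by positivity, fun m n t s S 𝓑 x₀ hS hs h𝓑 hx => ?_⟩
  rcases Nat.eq_zero_or_pos t with rfl | ht
  · obtain ⟨B, hB1, hB2⟩ := round_st S hS h𝓑 hx
    refine ⟨B, hB1, fun i => (hB2 i).trans ?_⟩
    simp only [Nat.cast_zero, mul_zero, Real.sqrt_zero, Real.log_zero, add_zero, zero_add,
      Real.one_rpow, one_mul]
    positivity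
  · have ht1 : (1:ℝ) ≤ t := by exact_mod_cast ht
    have ht0 : (0:ℝ) < t := by linarith
    have hst : 1 ≤ Real.sqrt t := Real.one_le_sqrt.2 ht1
    have hst0 : 0 < Real.sqrt t := by linarith
    have hsq : Real.sqrt t * Real.sqrt t = t := Real.mul_self_sqrt ht0.le
    set v : Fin n → Fin m → ℝ := fun j i => inc S j i / Real.sqrt t with hv
    obtain ⟨B, hB1, hB2⟩ := hC n m s v (1 / Real.sqrt t) 𝓑 x₀ (by positivity)
      (by rw [div_le_one hst0]; exact hst) (fun j => by
        have h1 : ∀ i, v j i ^ 2 ≤ |inc S j i| / t := by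
          intro i
          have h2 : v j i ^ 2 = inc S j i ^ 2 / t := by
            rw [hv]
            simp only
            rw [div_pow, Real.sq_sqrt ht0.le]
          rw [h2]
          apply div_le_div_of_nonneg_right _ ht0.le
          unfold inc
          split_ifs <;> simp
        refine (Finset.sum_le_sum fun i _ => h1 i).trans ?_
        rw [← Finset.sum_div, div_le_one ht0]
        exact sum_inc hS j) (fun j i => by
        rw [hv]
        simp only
        rw [abs_div, abs_of_pos hst0]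
        exact div_le_div_of_nonneg_right (inc_abs S j i) hst0.le) hs h𝓑 hx
    refine ⟨B, hB1, fun i => ?_⟩
    have h1 := hB2 i
    have h2 : ∑ j ∈ B, v j i - ∑ j, x₀ j * v j i =
        (((S i ∩ B).card : ℝ) - ∑ j ∈ S i, x₀ j) / Real.sqrt t := by
      rw [sub_div, ← sum_card S i B, ← sum_set S i x₀, Finset.sum_div, Finset.sum_div]
      congr 1
      exact Finset.sum_congr rfl fun j _ => by rw [hv]; simp only; rw [mul_div_assoc]
    rw [h2, abs_div, abs_of_pos hst0, div_le_iff₀ hst0, min_comm n m] at h1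
    refine h1.trans ?_
    set Lm : ℝ := Real.log (1 + (min m n : ℕ)) with hLm
    have hLm0 : 0 ≤ Lm := log_nat_nonneg _
    have hlt : 0 ≤ Real.log t := Real.log_nonneg ht1
    have hlog : Real.log (1 / (1 / Real.sqrt t)) = 1 / 2 * Real.log t := by
      rw [one_div_one_div, Real.log_sqrt ht0.le]
      ring
    set a : ℝ := 1 + 1 / 2 * Real.log t with ha
    have ha1 : 1 ≤ a := by rw [ha]; linarith
    have hlev : lev (1 / Real.sqrt t) (min m n) = a + Lm := by
      unfold lev
      rw [hlog]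
    have h3 : bnd (1 / Real.sqrt t) (min m n) * Real.sqrt t ≤
        Real.sqrt t + Real.sqrt (a + Lm) * a ^ (3 / 2 : ℝ) := by
      have h4 : bnd (1 / Real.sqrt t) (min m n) ≤
          1 + 1 / Real.sqrt t * Real.sqrt (a + Lm) * a ^ (3 / 2 : ℝ) := by
        refine (min_le_right _ _).trans (le_of_eq ?_)
        rw [hlev, hlog]
      refine (mul_le_mul_of_nonneg_right h4 hst0.le).trans (le_of_eq ?_)
      field_simp
    have h5 : Real.sqrt (a + Lm) ≤ Real.sqrt a + Real.sqrt Lm := by
      refine Real.sqrt_le_iff.mpr ⟨by positivity, ?_⟩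
      have e1 : Real.sqrt a ^ 2 = a := Real.sq_sqrt (by linarith)
      have e2 : Real.sqrt Lm ^ 2 = Lm := Real.sq_sqrt hLm0
      nlinarith [mul_nonneg (Real.sqrt_nonneg a) (Real.sqrt_nonneg Lm)]
    have h6 : Real.sqrt a * a ^ (3 / 2 : ℝ) = a ^ 2 := by
      rw [Real.sqrt_eq_rpow, ← Real.rpow_add (by linarith), ← Real.rpow_natCast a 2]
      norm_num
    have h7 : a ^ 2 ≤ 4 * Real.sqrt t := log_le_root ht1
    have h8 : a ^ (3 / 2 : ℝ) ≤ (1 + Real.log t) ^ (3 / 2 : ℝ) :=
      Real.rpow_le_rpow (by linarith) (by rw [ha]; linarith) (by norm_num)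
    have h9 : 0 ≤ a ^ (3 / 2 : ℝ) := by positivity
    have h10 : Real.sqrt (a + Lm) * a ^ (3 / 2 : ℝ) ≤
        4 * Real.sqrt t + (1 + Real.log t) ^ (3 / 2 : ℝ) * Real.sqrt Lm := by
      calc Real.sqrt (a + Lm) * a ^ (3 / 2 : ℝ)
          ≤ (Real.sqrt a + Real.sqrt Lm) * a ^ (3 / 2 : ℝ) := mul_le_mul_of_nonneg_right h5 h9
        _ = a ^ 2 + a ^ (3 / 2 : ℝ) * Real.sqrt Lm := by rw [add_mul, h6]; ring
        _ ≤ 4 * Real.sqrt t + (1 + Real.log t) ^ (3 / 2 : ℝ) * Real.sqrt Lm :=
            add_le_add h7 (mul_le_mul_of_nonneg_right h8 (Real.sqrt_nonneg _))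
    have h11 : 0 ≤ (1 + Real.log t) ^ (3 / 2 : ℝ) * Real.sqrt Lm := by positivity
    have h12 : bnd (1 / Real.sqrt t) (min m n) * Real.sqrt t ≤
        5 * (Real.sqrt t + (1 + Real.log t) ^ (3 / 2 : ℝ) * Real.sqrt Lm) := by linarith
    calc C * s * bnd (1 / Real.sqrt t) (min m n) * Real.sqrt t
        = C * s * (bnd (1 / Real.sqrt t) (min m n) * Real.sqrt t) := by ring
      _ ≤ C * s * (5 * (Real.sqrt t + (1 + Real.log t) ^ (3 / 2 : ℝ) * Real.sqrt Lm)) :=
          mul_le_mul_of_nonneg_left h12 (by positivity)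
      _ = _ := by ring

/-- the Beck-Fiala bound `C √t` for all set systems gives signings of the block vectors -/
theorem signable_bf {C : ℝ} (_hC : 0 ≤ C)
    (h : ∀ (m n t : ℕ) (S : Fin m → Finset (Fin n)), DegreeLE S t →
      ∃ χ : Fin n → ℝ, (∀ j, χ j = 1 ∨ χ j = -1) ∧ ∀ i, |∑ j ∈ S i, χ j| ≤ C * Real.sqrt t)
    {m n t s : ℕ} (S : Fin m → Finset (Fin n)) (hS : DegreeLE S t) (N : ℕ) :
    Signable (fun w : Fin m → ℝ => ∃ (D : Finset (Fin n)) (σ : Fin n → ℝ), D.card ≤ s ∧
      (∀ j, σ j = 1 ∨ σ j = -1) ∧ w = fun i => ∑ j ∈ D, σ j * inc S j i) N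
      (2 * s * (C * Real.sqrt (s * t))) := by
  classical
  intro M _ w hw
  choose D σ hD hσ hwD using hw
  -- positions inside the blocks
  have hpos : ∀ i : Fin M, ∃ g : Fin n → Fin (s + 1), ∀ j ∈ D i, (g j : ℕ) < s ∧
      ∀ j' ∈ D i, g j = g j' → j = j' := by
    intro i
    have e := (D i).equivFin
    refine ⟨fun j => if hj : j ∈ D i then ⟨((D i).equivFin ⟨j, hj⟩ : ℕ), by
      have := ((D i).equivFin ⟨j, hj⟩).2
      have := hD i
      omega⟩ else 0, fun j hj => ⟨?_, fun j' hj' hg => ?_⟩⟩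
    · simp only [hj, dif_pos]
      have := ((D i).equivFin ⟨j, hj⟩).2
      have := hD i
      omega
    · simp only [hj, hj', dif_pos, Fin.mk.injEq] at hg
      have h1 := (D i).equivFin.injective (Fin.ext hg)
      exact congrArg Subtype.val h1
  choose g hg using hpos
  -- the rows of the new set system: (set, position, sign)
  let ρ : Type := Fin m × Fin s × Bool
  let sg : Bool → ℝ := fun b => if b then 1 else -1
  let T : ρ → Finset (Fin M) := fun r => univ.filter (fun i =>
    ∃ j ∈ D i, (g i j : ℕ) = r.2.1 ∧ σ i j = sg r.2.2 ∧ j ∈ S r.1)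
  let e : ρ ≃ Fin (Fintype.card ρ) := Fintype.equivFin ρ
  obtain ⟨χ, hχ1, hχ2⟩ := h (Fintype.card ρ) M (s * t) (fun r => T (e.symm r)) (by
    intro i
    -- the number of rows containing `i`
    have h1 : (univ.filter (fun r => i ∈ T (e.symm r))).card =
        (univ.filter (fun r : ρ => i ∈ T r)).card := by
      refine Finset.card_bij' (fun r _ => e.symm r) (fun r _ => e r) ?_ ?_ ?_ ?_
      · intro r hr; simpa using hr
      · intro r hr; simpa using hr
      · intro r _; simp
      · intro r _; simp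
    rw [h1]
    have h2 : univ.filter (fun r : ρ => i ∈ T r) ⊆
        (D i).biUnion (fun j => (univ.filter (fun a => j ∈ S a)).biUnion (fun a =>
          univ.filter (fun r : ρ => r.1 = a ∧ (g i j : ℕ) = r.2.1 ∧ σ i j = sg r.2.2))) := by
      intro r hr
      simp only [T, Finset.mem_filter, Finset.mem_univ, true_and] at hr
      obtain ⟨j, hj, h3, h4, h5⟩ := hr
      simp only [Finset.mem_biUnion, Finset.mem_filter, Finset.mem_univ, true_and]
      exact ⟨j, hj, r.1, h5, rfl, h3, h4⟩
    refine (Finset.card_le_card h2).trans ?_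
    refine (Finset.card_biUnion_le).trans ?_
    have h3 : ∀ j ∈ D i, ((univ.filter (fun a => j ∈ S a)).biUnion (fun a =>
        univ.filter (fun r : ρ => r.1 = a ∧ (g i j : ℕ) = r.2.1 ∧ σ i j = sg r.2.2))).card ≤ t := by
      intro j _
      refine (Finset.card_biUnion_le).trans ?_
      refine (Finset.sum_le_card_nsmul _ _ 1 (fun a _ => ?_)).trans ?_
      · rw [Finset.card_le_one]
        rintro ⟨a1, b1, c1⟩ h4 ⟨a2, b2, c2⟩ h5
        simp only [Finset.mem_filter, Finset.mem_univ, true_and] at h4 h5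
        obtain ⟨h6, h7, h8⟩ := h4
        obtain ⟨h9, h10, h11⟩ := h5
        have h12 : b1 = b2 := Fin.ext (by rw [← h7, ← h10])
        have h13 : c1 = c2 := by
          have h14 : sg c1 = sg c2 := by rw [← h8, ← h11]
          simp only [sg] at h14
          cases c1 <;> cases c2
          · rfl
          · norm_num at h14
          · norm_num at h14
          · rfl
        rw [h6, h9, h12, h13]
      · rw [smul_eq_mul, mul_one]
        exact hS j
    refine (Finset.sum_le_sum h3).trans ?_
    rw [Finset.sum_const, smul_eq_mul]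
    exact Nat.mul_le_mul_right t (hD i))
  refine ⟨χ, hχ1, fun k => ?_⟩
  have hT : ∀ r : ρ, |∑ i ∈ T r, χ i| ≤ C * Real.sqrt (s * t) := by
    intro r
    have := hχ2 (e r)
    rw [Equiv.symm_apply_apply] at this
    push_cast at this
    exact this
  have key : ∑ i, χ i * w i k = ∑ p : Fin s, ∑ b : Bool, sg b * ∑ i ∈ T (k, p, b), χ i := by
    have h1 : ∀ i, w i k = ∑ p : Fin s, ∑ b : Bool, sg b *
        (if i ∈ T (k, p, b) then (1:ℝ) else 0) := by
      intro i
      rw [hwD i]
      simp only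
      -- fiberwise over the position and the sign
      have h2 : ∀ p b, (if i ∈ T (k, p, b) then (1:ℝ) else 0) =
          ∑ j ∈ D i, (if (g i j : ℕ) = p ∧ σ i j = sg b ∧ j ∈ S k then 1 else 0) := by
        intro p b
        by_cases hi : i ∈ T (k, p, b)
        · rw [if_pos hi]
          simp only [T, Finset.mem_filter, Finset.mem_univ, true_and] at hi
          obtain ⟨j, hj, h3, h4, h5⟩ := hi
          rw [Finset.sum_eq_single j]
          · rw [if_pos ⟨h3, h4, h5⟩]
          · intro j' hj' hne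
            apply if_neg
            rintro ⟨h6, _, _⟩
            exact hne (((hg i j hj).2 j' hj' (Fin.ext (by rw [h3, h6]))).symm)
          · intro h6; exact absurd hj h6
        · rw [if_neg hi]
          symm
          apply Finset.sum_eq_zero
          intro j hj
          apply if_neg
          rintro ⟨h3, h4, h5⟩
          apply hi
          simp only [T, Finset.mem_filter, Finset.mem_univ, true_and]
          exact ⟨j, hj, h3, h4, h5⟩
      calc ∑ j ∈ D i, σ i j * inc S j k
          = ∑ j ∈ D i, ∑ p : Fin s, ∑ b : Bool, sg b *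
              (if (g i j : ℕ) = p ∧ σ i j = sg b ∧ j ∈ S k then (1:ℝ) else 0) := by
            refine Finset.sum_congr rfl (fun j hj => ?_)
            have hgs := (hg i j hj).1
            rw [Finset.sum_eq_single (⟨g i j, hgs⟩ : Fin s)]
            · rw [Fintype.sum_bool]
              by_cases hk : j ∈ S k
              · rcases hσ i j with h3 | h3
                · simp only [sg, h3, inc, hk, and_true, true_and, if_true]
                  norm_num
                · simp only [sg, h3, inc, hk, and_true, true_and, if_true]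
                  norm_num
              · simp [inc, hk]
            · intro p _ hp
              refine Finset.sum_eq_zero (fun b _ => ?_)
              rw [if_neg, mul_zero]
              rintro ⟨h3, _, _⟩
              exact hp (Fin.ext h3.symm)
            · intro h3; exact absurd (Finset.mem_univ _) h3
        _ = ∑ p : Fin s, ∑ j ∈ D i, ∑ b : Bool, sg b *
              (if (g i j : ℕ) = p ∧ σ i j = sg b ∧ j ∈ S k then (1:ℝ) else 0) :=
            Finset.sum_comm
        _ = ∑ p : Fin s, ∑ b : Bool, ∑ j ∈ D i, sg b *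
              (if (g i j : ℕ) = p ∧ σ i j = sg b ∧ j ∈ S k then (1:ℝ) else 0) :=
            Finset.sum_congr rfl (fun p _ => Finset.sum_comm)
        _ = ∑ p : Fin s, ∑ b : Bool, sg b * (if i ∈ T (k, p, b) then (1:ℝ) else 0) := by
            refine Finset.sum_congr rfl (fun p _ => Finset.sum_congr rfl (fun b _ => ?_))
            rw [h2, Finset.mul_sum]
    calc ∑ i, χ i * w i k = ∑ i, ∑ p : Fin s, ∑ b : Bool, χ i * (sg b *
          (if i ∈ T (k, p, b) then (1:ℝ) else 0)) := by
          refine Finset.sum_congr rfl (fun i _ => ?_)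
          rw [h1 i, Finset.mul_sum]
          exact Finset.sum_congr rfl (fun p _ => Finset.mul_sum _ _ _)
      _ = ∑ p : Fin s, ∑ i, ∑ b : Bool, χ i * (sg b *
          (if i ∈ T (k, p, b) then (1:ℝ) else 0)) := Finset.sum_comm
      _ = ∑ p : Fin s, ∑ b : Bool, ∑ i, χ i * (sg b *
          (if i ∈ T (k, p, b) then (1:ℝ) else 0)) :=
          Finset.sum_congr rfl (fun p _ => Finset.sum_comm)
      _ = ∑ p : Fin s, ∑ b : Bool, sg b * ∑ i ∈ T (k, p, b), χ i := by
          refine Finset.sum_congr rfl (fun p _ => Finset.sum_congr rfl (fun b _ => ?_))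
          rw [Finset.mul_sum, ← Finset.sum_filter_add_sum_filter_not univ (fun i => i ∈ T (k, p, b))]
          have e1 : ∑ i ∈ univ.filter (fun i => i ∉ T (k, p, b)), χ i * (sg b *
              (if i ∈ T (k, p, b) then (1:ℝ) else 0)) = 0 := by
            refine Finset.sum_eq_zero (fun i hi => ?_)
            rw [Finset.mem_filter] at hi
            rw [if_neg hi.2]; ring
          rw [e1, add_zero]
          have e2 : univ.filter (fun i => i ∈ T (k, p, b)) = T (k, p, b) := by
            ext i; simp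
          rw [e2]
          refine Finset.sum_congr rfl (fun i hi => ?_)
          rw [if_pos hi]; ring
  rw [key]
  have hsg : ∀ b, |sg b| = 1 := by
    intro b
    cases b <;> simp [sg]
  calc |∑ p : Fin s, ∑ b : Bool, sg b * ∑ i ∈ T (k, p, b), χ i|
      ≤ ∑ p : Fin s, |∑ b : Bool, sg b * ∑ i ∈ T (k, p, b), χ i| :=
        Finset.abs_sum_le_sum_abs _ _
    _ ≤ ∑ _p : Fin s, 2 * (C * Real.sqrt (s * t)) := by
        refine Finset.sum_le_sum (fun p _ => ?_)
        refine (Finset.abs_sum_le_sum_abs _ _).trans ?_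
        rw [Fintype.sum_bool]
        rw [abs_mul, abs_mul, hsg, hsg, one_mul, one_mul]
        linarith [hT (k, p, true), hT (k, p, false)]
    _ = _ := by
        rw [Finset.sum_const, Finset.card_univ, Fintype.card_fin, nsmul_eq_mul]
        ring

end Run7.h715.Mat.BF
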