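import Mathlib

/-!
# Rounding convex combinations of the members of a family with bounded exchange blocks

Binary merging: two members `B`, `B'` of the family are replaced by one member between them, the
blocks in which it agrees with `B'` being chosen by a signing of the block vectors.
-/

set_option autoImplicit false
set_option linter.unusedSimpArgs false

namespace Run7.h715.Mat

open Finset
open scoped symmDiff

/-- The family `𝓑` of subsets of `[n]` has exchange blocks of size at most `s`: for any two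
members `B`, `B'` the elements of `B ∆ B'` can be labelled (`c j` is the label of `j`) such that
every label is used at most `s` times, and such that for every set `I` of labels the set obtained
from `B` by changing the membership of the elements of `B ∆ B'` with a label in `I` is a member. -/
def ExchangeBlocks {n : ℕ} (𝓑 : Set (Finset (Fin n))) (s : ℕ) : Prop :=
  ∀ B ∈ 𝓑, ∀ B' ∈ 𝓑, ∃ c : Fin n → Fin n,
    (∀ i, ((B ∆ B').filter (fun j => c j = i)).card ≤ s) ∧
    ∀ I : Finset (Fin n), B ∆ ((B ∆ B').filter (fun j => c j ∈ I)) ∈ 𝓑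

/-- Every family of at most `N` vectors with the property `P` has a signing of value `≤ β`. -/
def Signable {κ : Type} (P : (κ → ℝ) → Prop) (N : ℕ) (β : ℝ) : Prop :=
  ∀ M ≤ N, ∀ w : Fin M → κ → ℝ, (∀ i, P (w i)) →
    ∃ ε : Fin M → ℝ, (∀ i, ε i = 1 ∨ ε i = -1) ∧ ∀ k, |∑ i, ε i * w i k| ≤ β

theorem Signable.fintype {κ : Type} {P : (κ → ℝ) → Prop} {N : ℕ} {β : ℝ} (h : Signable P N β)
    {ι : Type} [Fintype ι] (hι : Fintype.card ι ≤ N) (w : ι → κ → ℝ) (hw : ∀ i, P (w i)) :
    ∃ ε : ι → ℝ, (∀ i, ε i = 1 ∨ ε i = -1) ∧ ∀ k, |∑ i, ε i * w i k| ≤ β := by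
  classical
  let e := Fintype.equivFin ι
  obtain ⟨ε, h1, h2⟩ := h (Fintype.card ι) hι (fun i => w (e.symm i)) (fun i => hw _)
  refine ⟨fun i => ε (e i), fun i => h1 _, fun k => ?_⟩
  refine le_trans (le_of_eq ?_) (h2 k)
  congr 1
  rw [← Equiv.sum_comp e.symm]
  refine Finset.sum_congr rfl fun i _ => ?_
  simp

theorem Signable.mono {κ : Type} {P : (κ → ℝ) → Prop} {N N' : ℕ} {β : ℝ} (h : Signable P N β)
    (hN : N' ≤ N) : Signable P N' β :=
  fun M hM w hw => h M (hM.trans hN) w hw

theorem sum_cons_bool {k : ℕ} (F : (Fin (k + 1) → Bool) → ℝ) :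
    ∑ x, F x = ∑ y : Fin k → Bool, (F (Fin.cons false y) + F (Fin.cons true y)) := by
  rw [← Equiv.sum_comp (Fin.consEquiv (fun _ => Bool)), Fintype.sum_prod_type, Fintype.sum_bool,
    ← Finset.sum_add_distrib]
  refine Finset.sum_congr rfl fun y _ => ?_
  exact add_comm _ _

variable {n : ℕ} {κ : Type}

/-- one merging step for two sets -/
theorem merge_two (B B' : Finset (Fin n)) (c : Fin n → Fin n) (ε : Fin n → ℝ)
    (hε : ∀ i, ε i = 1 ∨ ε i = -1) (u : Fin n → ℝ) :
    ∑ j ∈ B ∆ ((B ∆ B').filter (fun j => c j ∈ univ.filter (fun i => ε i = 1))), u j =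
      (∑ j ∈ B, u j + ∑ j ∈ B', u j) / 2 +
        (∑ i, ε i * ∑ j ∈ (B ∆ B').filter (fun j => c j = i),
          (if j ∈ B' then 1 else -1) * u j) / 2 := by
  classical
  have h1 : ∑ i, ε i * ∑ j ∈ (B ∆ B').filter (fun j => c j = i),
      (if j ∈ B' then (1:ℝ) else -1) * u j =
      ∑ j, (if j ∈ B ∆ B' then ε (c j) * ((if j ∈ B' then (1:ℝ) else -1) * u j) else 0) := by
    simp_rw [Finset.mul_sum]
    rw [← Finset.sum_filter, ← Finset.sum_fiberwise (s := univ.filter (fun j => j ∈ B ∆ B')) (g := c)]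
    refine Finset.sum_congr rfl fun i _ => ?_
    have : (univ.filter (fun j => j ∈ B ∆ B')).filter (fun j => c j = i) =
        (B ∆ B').filter (fun j => c j = i) := by
      ext j; simp
    rw [this]
    refine Finset.sum_congr rfl fun j hj => ?_
    rw [(Finset.mem_filter.1 hj).2]
  have h2 : ∀ A : Finset (Fin n), ∑ j ∈ A, u j = ∑ j, (if j ∈ A then u j else 0) := by
    intro A
    rw [← Finset.sum_filter]
    congr 1
    ext j; simp
  rw [h1, h2, h2 B, h2 B', ← Finset.sum_add_distrib, Finset.sum_div, Finset.sum_div,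
    ← Finset.sum_add_distrib]
  refine Finset.sum_congr rfl fun j _ => ?_
  simp only [Finset.mem_symmDiff, Finset.mem_filter, Finset.mem_univ, true_and]
  have hne : ¬ ((-1:ℝ) = 1) := by norm_num
  by_cases hB : j ∈ B <;> by_cases hB' : j ∈ B'
  · simp [hB, hB']
  · rcases hε (c j) with h | h
    · simp only [hB, hB', h, if_true, if_false, not_true, not_false_iff, and_true, and_false,
        or_false, false_or, true_and, false_and]
      ring
    · simp [hB, hB', h, hne]
  · rcases hε (c j) with h | h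
    · simp [hB, hB', h]
    · simp only [hB, hB', h, hne, if_true, if_false, not_true, not_false_iff, and_true, and_false,
        or_false, false_or, true_and, false_and]
      ring
  · simp [hB, hB']

/-- **Binary merging.** -/
theorem merge {𝓑 : Set (Finset (Fin n))} {s : ℕ} (h𝓑 : ExchangeBlocks 𝓑 s)
    (v : Fin n → κ → ℝ) (P : (κ → ℝ) → Prop)
    (hP : ∀ D : Finset (Fin n), D.card ≤ s → ∀ σ : Fin n → ℝ, (∀ j, σ j = 1 ∨ σ j = -1) →
      P (fun k => ∑ j ∈ D, σ j * v j k)) (β : ℝ) :
    ∀ (k : ℕ), Signable P (2 ^ k * n) β → ∀ f : (Fin k → Bool) → Finset (Fin n),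
      (∀ x, f x ∈ 𝓑) → ∃ B ∈ 𝓑, ∀ a,
        |∑ j ∈ B, v j a - (∑ x, ∑ j ∈ f x, v j a) / 2 ^ k| ≤ (1 - 1 / 2 ^ k) * β := by
  classical
  intro k
  induction k with
  | zero =>
    intro _ f hf
    refine ⟨f default, hf _, fun a => ?_⟩
    rw [Fintype.sum_subsingleton _ (default : Fin 0 → Bool), pow_zero, div_one, div_one, sub_self,
      abs_zero, sub_self, zero_mul]
  | succ k ih =>
    intro hS f hf
    have hex : ∀ y : Fin k → Bool, ∃ c : Fin n → Fin n,
        (∀ i, ((f (Fin.cons false y) ∆ f (Fin.cons true y)).filter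
          (fun j => c j = i)).card ≤ s) ∧
        ∀ I : Finset (Fin n), f (Fin.cons false y) ∆
          ((f (Fin.cons false y) ∆ f (Fin.cons true y)).filter (fun j => c j ∈ I)) ∈ 𝓑 :=
      fun y => h𝓑 _ (hf _) _ (hf _)
    choose c hc1 hc2 using hex
    have hk : 2 ^ k * n ≤ 2 ^ (k + 1) * n :=
      Nat.mul_le_mul_right n (Nat.pow_le_pow_right (by norm_num) (Nat.le_succ k))
    set w : (Fin k → Bool) × Fin n → κ → ℝ := fun p a =>
      ∑ j ∈ (f (Fin.cons false p.1) ∆ f (Fin.cons true p.1)).filter (fun j => c p.1 j = p.2),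
        (if j ∈ f (Fin.cons true p.1) then (1:ℝ) else -1) * v j a with hw
    obtain ⟨ε, hε1, hε2⟩ := hS.fintype (ι := (Fin k → Bool) × Fin n) (by
      simpa using hk) w (fun p => hP _ (hc1 p.1 p.2) _ (fun j => by
        by_cases h : j ∈ f (Fin.cons true p.1) <;> simp [h]))
    set g : (Fin k → Bool) → Finset (Fin n) := fun y =>
      f (Fin.cons false y) ∆ ((f (Fin.cons false y) ∆ f (Fin.cons true y)).filter
        (fun j => c y j ∈ univ.filter (fun i => ε (y, i) = 1))) with hg
    obtain ⟨B, hB1, hB2⟩ := ih (hS.mono hk) g (fun y => hc2 y _)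
    refine ⟨B, hB1, fun a => ?_⟩
    have h1 : (∑ y, ∑ j ∈ g y, v j a) / 2 ^ k - (∑ x, ∑ j ∈ f x, v j a) / 2 ^ (k + 1) =
        (∑ p, ε p * w p a) / 2 ^ (k + 1) := by
      rw [sum_cons_bool (fun x => ∑ j ∈ f x, v j a), Fintype.sum_prod_type]
      have h2 : ∀ y, ∑ j ∈ g y, v j a =
          (∑ j ∈ f (Fin.cons false y), v j a + ∑ j ∈ f (Fin.cons true y), v j a) / 2 +
            (∑ i, ε (y, i) * w (y, i) a) / 2 := by
        intro y
        exact merge_two (f (Fin.cons false y)) (f (Fin.cons true y)) (c y) (fun i => ε (y, i))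
          (fun i => hε1 _) (fun j => v j a)
      simp_rw [h2]
      rw [Finset.sum_add_distrib, ← Finset.sum_div, ← Finset.sum_div, pow_succ]
      have : (2:ℝ) ^ k ≠ 0 := by positivity
      field_simp
      ring
    have h3 := hB2 a
    have h4 := hε2 a
    have h5 : |(∑ p, ε p * w p a) / 2 ^ (k + 1)| ≤ β / 2 ^ (k + 1) := by
      rw [abs_div, abs_of_pos (by positivity : (0:ℝ) < 2 ^ (k + 1))]
      exact div_le_div_of_nonneg_right h4 (by positivity)
    have h6 : ∑ j ∈ B, v j a - (∑ x, ∑ j ∈ f x, v j a) / 2 ^ (k + 1) =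
        (∑ j ∈ B, v j a - (∑ y, ∑ j ∈ g y, v j a) / 2 ^ k) + (∑ p, ε p * w p a) / 2 ^ (k + 1) := by
      rw [← h1]
      ring
    rw [h6]
    refine (abs_add_le _ _).trans ?_
    have h7 : (1 - 1 / 2 ^ (k + 1)) * β = (1 - 1 / 2 ^ k) * β + β / 2 ^ (k + 1) := by
      rw [pow_succ]
      have : (2:ℝ) ^ k ≠ 0 := by positivity
      field_simp
      ring
    rw [h7]
    linarith

end Run7.h715.Mat
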