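import Pool.Agent.Run7.h715.Mat.Core

/-!
# Bases and independent sets of strongly base orderable matroids have exchange blocks of size two
-/

set_option autoImplicit false

namespace Run7.h715.Mat

open Finset
open scoped symmDiff

/-- A matroid is strongly base orderable if for any two bases `B`, `B'` there is a bijection `f`
from `B` to `B'` such that `(B \ X) ∪ f(X)` is a base for all `X ⊆ B`. -/
def StronglyBaseOrderable {n : ℕ} (M : Matroid (Fin n)) : Prop :=
  ∀ B B' : Set (Fin n), M.IsBase B → M.IsBase B' →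
    ∃ f : Fin n → Fin n, Set.BijOn f B B' ∧ ∀ X ⊆ B, M.IsBase ((B \ X) ∪ f '' X)

/-- The bases of a matroid on (a subset of) `[n]`. -/
def bases {n : ℕ} (M : Matroid (Fin n)) : Set (Finset (Fin n)) := {B | M.IsBase (B : Set (Fin n))}

/-- The independent sets of a matroid on (a subset of) `[n]`. -/
def indeps {n : ℕ} (M : Matroid (Fin n)) : Set (Finset (Fin n)) := {I | M.Indep (I : Set (Fin n))}

theorem fixes {n : ℕ} {M : Matroid (Fin n)} {B : Set (Fin n)} {f : Fin n → Fin n}
    (hB : M.IsBase B) (hf : ∀ X ⊆ B, M.IsBase ((B \ X) ∪ f '' X)) {e : Fin n} (he : e ∈ B)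
    (hfe : f e ∈ B) : f e = e := by
  by_contra hne
  have h1 := hf {e} (Set.singleton_subset_iff.2 he)
  rw [Set.image_singleton] at h1
  have h2 : (B \ {e}) ∪ {f e} ⊆ B := by
    rintro x (hx | hx)
    · exact hx.1
    · rw [Set.mem_singleton_iff] at hx
      rw [hx]; exact hfe
  have h3 := h1.eq_of_subset_isBase hB h2
  have h4 : e ∈ (B \ {e}) ∪ {f e} := by rw [h3]; exact he
  rcases h4 with h | h
  · exact h.2 rfl
  · exact hne (Set.mem_singleton_iff.1 h).symm

theorem blocks_aux {n : ℕ} {M : Matroid (Fin n)} {B B' : Set (Fin n)} {f : Fin n → Fin n}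
    (hB : M.IsBase B) (hf1 : Set.BijOn f B B') (hf : ∀ X ⊆ B, M.IsBase ((B \ X) ∪ f '' X))
    (I I' : Finset (Fin n)) (hI : (I : Set (Fin n)) ⊆ B) (hI' : (I' : Set (Fin n)) ⊆ B') :
    ∃ c : Fin n → Fin n,
      (∀ i, ((I ∆ I').filter (fun j => c j = i)).card ≤ 2) ∧
      ∀ L : Finset (Fin n), ∃ X ⊆ B,
        ((I ∆ ((I ∆ I').filter (fun j => c j ∈ L)) : Finset (Fin n)) : Set (Fin n)) ⊆
          (B \ X) ∪ f '' X ∧
        ((I : Set (Fin n)) = B → (I' : Set (Fin n)) = B' →
          (B \ X) ∪ f '' X ⊆ ((I ∆ ((I ∆ I').filter (fun j => c j ∈ L)) : Finset (Fin n)) :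
            Set (Fin n))) := by
  classical
  have hinv : ∀ j ∈ B', ∃ e ∈ B, f e = j := fun j hj => hf1.surjOn hj
  choose! g hg1 hg2 using hinv
  have hgf : ∀ e ∈ B, g (f e) = e := fun e he =>
    hf1.injOn (hg1 _ (hf1.mapsTo he)) he (hg2 _ (hf1.mapsTo he))
  have hfix : ∀ e ∈ B, f e ∈ B → f e = e := fun e he hfe => fixes hB hf he hfe
  have hfix' : ∀ j ∈ B, j ∈ B' → f j = j := by
    intro j hj hj'
    have h1 := hg2 j hj'
    have h2 := hfix (g j) (hg1 j hj') (by rw [h1]; exact hj)
    rw [h1] at h2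
    rw [← h2] at h1
    exact h1
  refine ⟨fun j => if j ∈ B then j else g j, fun i => ?_, fun L => ?_⟩
  · have hsub : (I ∆ I').filter (fun j => (if j ∈ B then j else g j) = i) ⊆ {i, f i} := by
      intro j hj
      rw [Finset.mem_filter, Finset.mem_symmDiff] at hj
      rw [Finset.mem_insert, Finset.mem_singleton]
      by_cases hjB : j ∈ B
      · left
        simpa [hjB] using hj.2
      · right
        have h1 : g j = i := by simpa [hjB] using hj.2
        have h2 : j ∈ I' := by
          rcases hj.1 with h | h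
          · exact absurd (hI h.1) hjB
          · exact h.1
        rw [← h1]
        exact (hg2 j (hI' h2)).symm
    exact (Finset.card_le_card hsub).trans Finset.card_le_two
  · refine ⟨{e | e ∈ B ∧ e ∈ L}, fun e he => he.1, ?_, ?_⟩
    · intro j hj
      rw [Finset.mem_coe, Finset.mem_symmDiff, Finset.mem_filter, Finset.mem_symmDiff] at hj
      by_cases hjI : j ∈ I
      · have hjB : j ∈ B := hI hjI
        by_cases hjI' : j ∈ I'
        · have hjB' : j ∈ B' := hI' hjI'
          by_cases hjL : j ∈ L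
          · right
            exact ⟨j, ⟨hjB, hjL⟩, hfix' j hjB hjB'⟩
          · left
            exact ⟨hjB, fun h => hjL h.2⟩
        · left
          refine ⟨hjB, fun h => ?_⟩
          rcases hj with h1 | h1
          · apply h1.2
            refine ⟨Or.inl ⟨hjI, hjI'⟩, ?_⟩
            simpa [hjB] using h.2
          · exact h1.2 hjI
      · have h1 : ((j ∈ I ∧ j ∉ I') ∨ (j ∈ I' ∧ j ∉ I)) ∧ (if j ∈ B then j else g j) ∈ L := by
          rcases hj with h1 | h1
          · exact absurd h1.1 hjI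
          · exact h1.1
        have hjI' : j ∈ I' := by
          rcases h1.1 with h | h
          · exact absurd h.1 hjI
          · exact h.1
        have hjB' : j ∈ B' := hI' hjI'
        right
        by_cases hjB : j ∈ B
        · refine ⟨j, ⟨hjB, ?_⟩, hfix' j hjB hjB'⟩
          simpa [hjB] using h1.2
        · refine ⟨g j, ⟨hg1 j hjB', ?_⟩, hg2 j hjB'⟩
          simpa [hjB] using h1.2
    · intro hIB hIB' j hj
      have hmemI : ∀ x, x ∈ I ↔ x ∈ B := fun x => by rw [← hIB]; exact Finset.mem_coe.symm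
      have hmemI' : ∀ x, x ∈ I' ↔ x ∈ B' := fun x => by rw [← hIB']; exact Finset.mem_coe.symm
      rw [Finset.mem_coe, Finset.mem_symmDiff, Finset.mem_filter, Finset.mem_symmDiff]
      rcases hj with ⟨hjB, hjX⟩ | ⟨x, ⟨hxB, hxL⟩, rfl⟩
      · left
        refine ⟨(hmemI j).2 hjB, fun h => hjX ⟨hjB, ?_⟩⟩
        simpa [hjB] using h.2
      · by_cases hfB : f x ∈ B
        · have hfx := hfix x hxB hfB
          left
          refine ⟨(hmemI _).2 hfB, fun h => ?_⟩
          have h2 : f x ∈ I' := (hmemI' _).2 (hf1.mapsTo hxB)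
          have h3 : f x ∈ I := (hmemI _).2 hfB
          rcases h.1 with h4 | h4
          · exact h4.2 h2
          · exact h4.2 h3
        · right
          have h2 : f x ∈ I' := (hmemI' _).2 (hf1.mapsTo hxB)
          have h3 : f x ∉ I := fun h => hfB ((hmemI _).1 h)
          refine ⟨⟨Or.inr ⟨h2, h3⟩, ?_⟩, h3⟩
          simp only [hfB, if_false]
          rw [hgf x hxB]
          exact hxL

theorem exchange_bases {n : ℕ} {M : Matroid (Fin n)} (hM : StronglyBaseOrderable M) :
    ExchangeBlocks (bases M) 2 := by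
  intro B hB B' hB'
  obtain ⟨f, hf1, hf2⟩ := hM _ _ hB hB'
  obtain ⟨c, hc1, hc2⟩ := blocks_aux hB hf1 hf2 B B' subset_rfl subset_rfl
  refine ⟨c, hc1, fun L => ?_⟩
  obtain ⟨X, hX, h1, h2⟩ := hc2 L
  have h3 := Set.Subset.antisymm h1 (h2 rfl rfl)
  show M.IsBase _
  rw [h3]
  exact hf2 X hX

theorem exchange_indeps {n : ℕ} {M : Matroid (Fin n)} (hM : StronglyBaseOrderable M) :
    ExchangeBlocks (indeps M) 2 := by
  intro I hI I' hI'
  obtain ⟨B, hB, hIB⟩ := Matroid.Indep.exists_isBase_superset (show M.Indep _ from hI)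
  obtain ⟨B', hB', hIB'⟩ := Matroid.Indep.exists_isBase_superset (show M.Indep _ from hI')
  obtain ⟨f, hf1, hf2⟩ := hM _ _ hB hB'
  obtain ⟨c, hc1, hc2⟩ := blocks_aux hB hf1 hf2 I I' hIB hIB'
  refine ⟨c, hc1, fun L => ?_⟩
  obtain ⟨X, hX, h1, _⟩ := hc2 L
  exact (hf2 X hX).indep.subset h1

/-- The family of all subsets has exchange blocks of size one. -/
theorem exchange_univ {n : ℕ} : ExchangeBlocks (Set.univ : Set (Finset (Fin n))) 1 := by
  classical
  intro B _ B' _
  refine ⟨id, fun i => ?_, fun _ => Set.mem_univ _⟩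
  have hsub : (B ∆ B').filter (fun j => id j = i) ⊆ {i} := by
    intro j hj
    rw [Finset.mem_filter] at hj
    exact Finset.mem_singleton.2 hj.2
  exact (Finset.card_le_card hsub).trans (by simp)

end Run7.h715.Mat
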