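import Pool.Agent.Run7.h715.Mat.Approx
import Pool.Agent.Run7.h715.Mat.Matr
import Pool.Agent.Results.MP_c81d26_co.KomlosIterFree

/-!
# Block vectors in the Euclidean ball, and the best known bounds for the signings
-/

set_option autoImplicit false

namespace Run7.h715.Mat

open Finset

/-- `1 + log (1/δ) + log (1 + m)` -/
noncomputable def lev (δ : ℝ) (m : ℕ) : ℝ := 1 + Real.log (1 / δ) + Real.log (1 + m)

/-- The bound for the signings of at most `m` vectors with entries at most `δ` (up to a constant). -/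
noncomputable def bnd (δ : ℝ) (m : ℕ) : ℝ :=
  min (lev δ m ^ (1 / 4 : ℝ))
    (1 + δ * Real.sqrt (lev δ m) * (1 + Real.log (1 / δ)) ^ (3 / 2 : ℝ))

theorem log_inv_nonneg {δ : ℝ} (h0 : 0 < δ) (h1 : δ ≤ 1) : 0 ≤ Real.log (1 / δ) :=
  Real.log_nonneg (by rw [le_div_iff₀ h0, one_mul]; exact h1)

theorem log_nat_nonneg (m : ℕ) : 0 ≤ Real.log (1 + m) :=
  Real.log_nonneg (by have : (0:ℝ) ≤ m := by positivity
                      linarith)

theorem one_le_lev {δ : ℝ} (h0 : 0 < δ) (h1 : δ ≤ 1) (m : ℕ) : 1 ≤ lev δ m := by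
  have := log_inv_nonneg h0 h1
  have := log_nat_nonneg m
  unfold lev
  linarith

theorem one_le_bnd {δ : ℝ} (h0 : 0 < δ) (h1 : δ ≤ 1) (m : ℕ) : 1 ≤ bnd δ m := by
  unfold bnd
  apply le_min
  · exact Real.one_le_rpow (one_le_lev h0 h1 m) (by norm_num)
  · have h2 : 0 ≤ (1 + Real.log (1 / δ)) ^ (3 / 2 : ℝ) := by
      have := log_inv_nonneg h0 h1
      positivity
    have h3 : 0 ≤ δ * Real.sqrt (lev δ m) * (1 + Real.log (1 / δ)) ^ (3 / 2 : ℝ) := by
      positivity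
    linarith

/-- comparison of two levels -/
theorem bnd_le {δ : ℝ} (h0 : 0 < δ) (h1 : δ ≤ 1) {m m' : ℕ}
    (h : Real.log (1 + m') ≤ 3 * (1 + Real.log (1 + m))) : bnd δ m' ≤ 2 * bnd δ m := by
  have ha := log_inv_nonneg h0 h1
  have hl : lev δ m' ≤ 4 * lev δ m := by
    have := log_nat_nonneg m
    unfold lev
    linarith
  have hl1 := one_le_lev h0 h1 m
  have hl2 := one_le_lev h0 h1 m'
  have hq : 0 ≤ (1 + Real.log (1 / δ)) ^ (3 / 2 : ℝ) := by positivity
  unfold bnd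
  rw [mul_min_of_nonneg _ _ (by norm_num : (0:ℝ) ≤ 2)]
  apply min_le_min
  · calc lev δ m' ^ (1 / 4 : ℝ) ≤ (4 * lev δ m) ^ (1 / 4 : ℝ) :=
          Real.rpow_le_rpow (by linarith) hl (by norm_num)
      _ = 4 ^ (1 / 4 : ℝ) * lev δ m ^ (1 / 4 : ℝ) :=
          Real.mul_rpow (by norm_num) (by linarith)
      _ ≤ 2 * lev δ m ^ (1 / 4 : ℝ) := by
          apply mul_le_mul_of_nonneg_right _ (by positivity)
          have h2 : (4:ℝ) ^ (1 / 4 : ℝ) ≤ 4 ^ (1 / 2 : ℝ) :=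
            Real.rpow_le_rpow_of_exponent_le (by norm_num) (by norm_num)
          have h3 : (4:ℝ) ^ (1 / 2 : ℝ) = 2 := by
            rw [← Real.sqrt_eq_rpow, show (4:ℝ) = 2 ^ 2 by norm_num]
            exact Real.sqrt_sq (by norm_num)
          rw [h3] at h2
          exact h2
  · have h4 : Real.sqrt (lev δ m') ≤ 2 * Real.sqrt (lev δ m) := by
      have h5 : Real.sqrt (4 * lev δ m) = 2 * Real.sqrt (lev δ m) := by
        rw [Real.sqrt_mul (by norm_num), show (4:ℝ) = 2 ^ 2 by norm_num,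
          Real.sqrt_sq (by norm_num)]
      rw [← h5]
      exact Real.sqrt_le_sqrt hl
    have h6 : δ * Real.sqrt (lev δ m') * (1 + Real.log (1 / δ)) ^ (3 / 2 : ℝ) ≤
        δ * (2 * Real.sqrt (lev δ m)) * (1 + Real.log (1 / δ)) ^ (3 / 2 : ℝ) :=
      mul_le_mul_of_nonneg_right (mul_le_mul_of_nonneg_left h4 h0.le) hq
    have h7 : 2 * (1 + δ * Real.sqrt (lev δ m) * (1 + Real.log (1 / δ)) ^ (3 / 2 : ℝ)) =
        2 + δ * (2 * Real.sqrt (lev δ m)) * (1 + Real.log (1 / δ)) ^ (3 / 2 : ℝ) := by ring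
    rw [h7]
    linarith

theorem bnd_mono {δ : ℝ} (h0 : 0 < δ) (h1 : δ ≤ 1) {m m' : ℕ} (h : m ≤ m') :
    bnd δ m ≤ bnd δ m' := by
  have ha := log_inv_nonneg h0 h1
  have hm : (m:ℝ) ≤ m' := by exact_mod_cast h
  have hl : lev δ m ≤ lev δ m' := by
    unfold lev
    have : Real.log (1 + m) ≤ Real.log (1 + m') := by
      apply Real.log_le_log
      · have : (0:ℝ) ≤ m := by positivity
        linarith
      · linarith
    linarith
  have hl1 := one_le_lev h0 h1 m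
  have hq : 0 ≤ (1 + Real.log (1 / δ)) ^ (3 / 2 : ℝ) := by positivity
  unfold bnd
  apply min_le_min
  · exact Real.rpow_le_rpow (by linarith) hl (by norm_num)
  · have h2 := mul_le_mul_of_nonneg_right
      (mul_le_mul_of_nonneg_left (Real.sqrt_le_sqrt hl) h0.le) hq
    linarith

/-- The block vectors: Euclidean norm at most `s`, entries at most `s δ`. -/
def Blk {d : ℕ} (s δ : ℝ) (w : Fin d → ℝ) : Prop := ∑ k, w k ^ 2 ≤ s ^ 2 ∧ ∀ k, |w k| ≤ s * δ

theorem blk_of {n d s : ℕ} (v : Fin n → Fin d → ℝ) (hv : ∀ j, ∑ k, v j k ^ 2 ≤ 1) (δ : ℝ)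
    (hδ : 0 ≤ δ) (hvδ : ∀ j k, |v j k| ≤ δ) (D : Finset (Fin n)) (hD : D.card ≤ s) (σ : Fin n → ℝ)
    (hσ : ∀ j, σ j = 1 ∨ σ j = -1) : Blk (s:ℝ) δ (fun k => ∑ j ∈ D, σ j * v j k) := by
  have hσ2 : ∀ j, σ j ^ 2 = 1 := by
    intro j
    rcases hσ j with h | h <;> rw [h] <;> norm_num
  have hσa : ∀ j, |σ j| = 1 := by
    intro j
    rcases hσ j with h | h <;> rw [h] <;> norm_num
  have hDs : (D.card : ℝ) ≤ s := by exact_mod_cast hD
  constructor
  · have h1 : ∀ k, (∑ j ∈ D, σ j * v j k) ^ 2 ≤ D.card * ∑ j ∈ D, v j k ^ 2 := by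
      intro k
      have h2 := sq_sum_le_card_mul_sum_sq (s := D) (f := fun j => σ j * v j k)
      refine h2.trans (le_of_eq ?_)
      congr 1
      refine Finset.sum_congr rfl fun j _ => ?_
      rw [mul_pow, hσ2, one_mul]
    refine (Finset.sum_le_sum fun k _ => h1 k).trans ?_
    rw [← Finset.mul_sum, Finset.sum_comm]
    have h3 : ∑ j ∈ D, ∑ k, v j k ^ 2 ≤ D.card := by
      refine (Finset.sum_le_sum fun j _ => hv j).trans ?_
      rw [Finset.sum_const, nsmul_eq_mul, mul_one]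
    have h4 : (0:ℝ) ≤ D.card := by positivity
    calc (D.card : ℝ) * ∑ j ∈ D, ∑ k, v j k ^ 2 ≤ D.card * D.card :=
          mul_le_mul_of_nonneg_left h3 h4
      _ ≤ s * s := mul_le_mul hDs hDs h4 (by positivity)
      _ = (s:ℝ) ^ 2 := by ring
  · intro k
    refine (Finset.abs_sum_le_sum_abs _ _).trans ?_
    have h1 : ∀ j ∈ D, |σ j * v j k| ≤ δ := by
      intro j _
      rw [abs_mul, hσa, one_mul]
      exact hvδ j k
    refine (Finset.sum_le_sum h1).trans ?_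
    rw [Finset.sum_const, nsmul_eq_mul]
    exact mul_le_mul_of_nonneg_right hDs hδ

theorem exists_signing : ∃ C : ℝ, 0 < C ∧ ∀ (d m : ℕ) (δ : ℝ) (w : Fin m → Fin d → ℝ), 0 < δ →
    δ ≤ 1 → (∀ i, ∑ k, w i k ^ 2 ≤ 1) → (∀ i k, |w i k| ≤ δ) →
    ∃ ε : Fin m → ℝ, (∀ i, ε i = 1 ∨ ε i = -1) ∧
      ∀ k, |∑ i, ε i * w i k| ≤ C * bnd δ (min d m) := by
  classical
  obtain ⟨C, hC⟩ := Pool.Agent.Results.MP_c81d26_co.KomlosIterFree.result
  refine ⟨|C| + 1, by positivity, fun d m δ w h0 h1 hw hwδ => ?_⟩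
  let u : Fin m → EuclideanSpace ℝ (Fin d) := fun i => WithLp.toLp 2 (w i)
  have hu : ∀ i k, u i k = w i k := fun i k => rfl
  have hnorm : ∀ i, ‖u i‖ ≤ 1 := by
    intro i
    rw [EuclideanSpace.norm_eq]
    simp only [Real.norm_eq_abs, sq_abs, hu]
    rw [Real.sqrt_le_one]
    exact hw i
  obtain ⟨ε, hε1, hε2⟩ := (hC d m (max m 1) u δ hnorm h0 h1 (fun i k => by rw [hu]; exact hwδ i k)
    (le_max_right _ _) (fun j => by
      refine (Finset.card_filter_le _ _).trans ?_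
      rw [Finset.card_univ, Fintype.card_fin]
      exact le_max_left _ _) 0 (fun _ => 0) (by simp)).1
  refine ⟨ε, hε1, fun k => ?_⟩
  have h2 := hε2 k
  have h3 : (∑ j, (ε j - 0) • u j) k = ∑ i, ε i * w i k := by
    simp [hu]
  rw [h3] at h2
  refine h2.trans ?_
  simp only [Nat.cast_zero, zero_mul, zero_add, Function.iterate_one]
  have h4 : 0 ≤ bnd δ (min d m) := zero_le_one.trans (one_le_bnd h0 h1 _)
  calc C * _ = C * bnd δ (min d m) := rfl
    _ ≤ |C| * bnd δ (min d m) := mul_le_mul_of_nonneg_right (le_abs_self C) h4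
    _ ≤ (|C| + 1) * bnd δ (min d m) := by nlinarith

/-- signings of block vectors, from signings of vectors of the unit ball -/
theorem signable_scale {d N : ℕ} {s δ β : ℝ} (hs : 0 < s)
    (h : ∀ m ≤ N, ∀ w : Fin m → Fin d → ℝ, (∀ i, ∑ k, w i k ^ 2 ≤ 1) → (∀ i k, |w i k| ≤ δ) →
      ∃ ε : Fin m → ℝ, (∀ i, ε i = 1 ∨ ε i = -1) ∧ ∀ k, |∑ i, ε i * w i k| ≤ β) :
    Signable (Blk (d := d) s δ) N (s * β) := by
  intro m hm w hw
  obtain ⟨ε, h1, h2⟩ := h m hm (fun i k => w i k / s) (fun i => by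
    simp_rw [div_pow]
    rw [← Finset.sum_div, div_le_one (by positivity)]
    exact (hw i).1) (fun i k => by
    rw [abs_div, abs_of_pos hs, div_le_iff₀ hs, mul_comm]
    exact (hw i).2 k)
  refine ⟨ε, h1, fun k => ?_⟩
  have h3 : ∑ i, ε i * w i k = s * ∑ i, ε i * (w i k / s) := by
    rw [Finset.mul_sum]
    refine Finset.sum_congr rfl fun i _ => ?_
    field_simp
  rw [h3, abs_mul, abs_of_pos hs]
  exact mul_le_mul_of_nonneg_left (h2 k) hs.le

theorem log_bound (n d : ℕ) : Real.log (1 + (min d (2 ^ Nat.clog 2 (2 * n * n) * n) : ℕ)) ≤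
    3 * (1 + Real.log (1 + (min n d : ℕ))) := by
  have hL := log_nat_nonneg (min n d)
  rcases le_total d n with h | h
  · have h1 : min d (2 ^ Nat.clog 2 (2 * n * n) * n) ≤ min n d := by
      rw [min_eq_right h]
      exact min_le_left _ _
    have h2 : Real.log (1 + (min d (2 ^ Nat.clog 2 (2 * n * n) * n) : ℕ)) ≤
        Real.log (1 + (min n d : ℕ)) := by
      apply Real.log_le_log
      · positivity
      · have : ((min d (2 ^ Nat.clog 2 (2 * n * n) * n) : ℕ) : ℝ) ≤ ((min n d : ℕ) : ℝ) := by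
          exact_mod_cast h1
        linarith
    linarith
  · rw [min_eq_left h] at hL ⊢
    rcases Nat.eq_zero_or_pos n with rfl | hn
    · simp
    · have h1 : 2 ^ Nat.clog 2 (2 * n * n) ≤ 4 * n * n := by
        have h2 : 1 < 2 * n * n := by nlinarith
        have h3 := Nat.pow_pred_clog_lt_self (by norm_num : 1 < 2) h2
        have h4 : 0 < Nat.clog 2 (2 * n * n) := Nat.clog_pos (by norm_num) h2
        have h5 : Nat.clog 2 (2 * n * n) = (Nat.clog 2 (2 * n * n)).pred + 1 :=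
          (Nat.succ_pred_eq_of_pos h4).symm
        rw [h5, pow_succ]
        nlinarith
      have h2 : min d (2 ^ Nat.clog 2 (2 * n * n) * n) ≤ 4 * n * n * n :=
        (min_le_right _ _).trans (Nat.mul_le_mul_right n h1)
      have hn0 : (1:ℝ) ≤ n := by exact_mod_cast hn
      have h3 : (1:ℝ) + (min d (2 ^ Nat.clog 2 (2 * n * n) * n) : ℕ) ≤ 4 * (1 + n) ^ 3 := by
        have : ((min d (2 ^ Nat.clog 2 (2 * n * n) * n) : ℕ) : ℝ) ≤ 4 * n * n * n := by
          exact_mod_cast h2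
        nlinarith [sq_nonneg (n:ℝ)]
      have h4 : Real.log (1 + (min d (2 ^ Nat.clog 2 (2 * n * n) * n) : ℕ)) ≤
          Real.log (4 * (1 + n) ^ 3) := Real.log_le_log (by positivity) h3
      refine h4.trans ?_
      rw [Real.log_mul (by norm_num) (by positivity), Real.log_pow]
      have h5 : Real.log 4 ≤ 3 := by
        have := Real.log_le_sub_one_of_pos (by norm_num : (0:ℝ) < 4)
        linarith
      push_cast
      linarith

/-- **The rounding theorem.** -/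
theorem rounding : ∃ C : ℝ, 0 < C ∧ ∀ (n d s : ℕ) (v : Fin n → Fin d → ℝ) (δ : ℝ)
    (𝓑 : Set (Finset (Fin n))) (x₀ : Fin n → ℝ), 0 < δ → δ ≤ 1 → (∀ j, ∑ k, v j k ^ 2 ≤ 1) →
    (∀ j k, |v j k| ≤ δ) → 1 ≤ s → ExchangeBlocks 𝓑 s →
    x₀ ∈ convexHull ℝ {y | ∃ B ∈ 𝓑, y = ind B} →
    ∃ B ∈ 𝓑, ∀ k, |∑ j ∈ B, v j k - ∑ j, x₀ j * v j k| ≤ C * s * bnd δ (min n d) := by
  obtain ⟨C, hC0, hC⟩ := exists_signing
  refine ⟨2 * C + 1, by positivity, fun n d s v δ 𝓑 x₀ h0 h1 hv hvδ hs h𝓑 hx => ?_⟩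
  have hs1 : (1:ℝ) ≤ s := by exact_mod_cast hs
  set K := Nat.clog 2 (2 * n * n) with hK
  have hb1 := one_le_bnd h0 h1 (min n d)
  have hS : Signable (Blk (d := d) (s:ℝ) δ) (2 ^ K * n) (s * (2 * C * bnd δ (min n d))) := by
    apply signable_scale (by linarith)
    intro m hm w hw1 hw2
    obtain ⟨ε, h2, h3⟩ := hC d m δ w h0 h1 hw1 hw2
    refine ⟨ε, h2, fun k => (h3 k).trans ?_⟩
    have h4 : bnd δ (min d m) ≤ 2 * bnd δ (min n d) :=
      (bnd_mono h0 h1 (min_le_min_left d hm)).trans (bnd_le h0 h1 (log_bound n d))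
    calc C * bnd δ (min d m) ≤ C * (2 * bnd δ (min n d)) := mul_le_mul_of_nonneg_left h4 hC0.le
      _ = 2 * C * bnd δ (min n d) := by ring
  obtain ⟨B, hB1, hB2⟩ := round h𝓑 v (fun j k => (hvδ j k).trans h1) (Blk (d := d) (s:ℝ) δ)
    (fun D hD σ hσ => blk_of v hv δ h0.le hvδ D hD σ hσ) (s * (2 * C * bnd δ (min n d)))
    (by positivity) K hS hx
  refine ⟨B, hB1, fun k => (hB2 k).trans ?_⟩
  have h5 : 2 * (n:ℝ) * n / 2 ^ K ≤ 1 := by
    rw [div_le_one (by positivity)]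
    have := Nat.le_pow_clog (by norm_num : 1 < 2) (2 * n * n)
    rw [← hK] at this
    exact_mod_cast this
  have h6 : (1:ℝ) ≤ s * bnd δ (min n d) := by nlinarith
  nlinarith

end Run7.h715.Mat
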